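import Pool.Agent.E8helper19.LC.Stm2
import Pool.Agent.E8helper57.LC.D3

set_option autoImplicit false
open MeasureTheory Filter Topology Set
open scoped ContDiff Real

namespace Pool.Agent.E8helper71.LC

open Pool.Agent.E8helper19.LC Pool.Agent.E8helper57.LC

theorem momAbs {F : ℝ → ℝ} {j : ℕ} (hF : IntegrableOn (fun x => x ^ j * F x) (Ioi 0)) {a : ℝ}
    (ha : 0 < a) :
    Integrable (fun h : ℝ => |h| ^ j * F (a * |h|)) ∧
    ∫ h : ℝ, |h| ^ j * F (a * |h|) = 2 * (∫ x in Ioi (0 : ℝ), x ^ j * F x) / a ^ (j + 1) := by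
  have e : ∀ h : ℝ, h ^ j * F (a * h) = (a ^ j)⁻¹ * ((a * h) ^ j * F (a * h)) := by
    intro h
    have : a ^ j ≠ 0 := by positivity
    rw [mul_pow]
    field_simp
  have h1 : IntegrableOn (fun h : ℝ => h ^ j * F (a * h)) (Ioi 0) := by
    simp_rw [e]
    apply Integrable.const_mul
    exact (integrableOn_Ioi_comp_mul_left_iff (fun x => x ^ j * F x) 0 ha).2 (by simpa using hF)
  refine ⟨integrable_abs (F := fun h => h ^ j * F (a * h)) h1, ?_⟩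
  rw [integral_comp_abs (f := fun h => h ^ j * F (a * h))]
  simp_rw [e]
  rw [integral_const_mul, integral_comp_mul_left_Ioi (fun x => x ^ j * F x) 0 ha]
  simp only [mul_zero, smul_eq_mul]
  rw [pow_succ]
  have : a ^ j ≠ 0 := by positivity
  field_simp

/-- all the data -/
structure Dat (γ : ℝ → P) (L k α c C₁ C₂ : ℝ) (H Q : ℝ → ℝ) : Prop extends Hyp γ L k α c H where
  C₁0 : 0 < C₁
  C₂0 : 0 < C₂
  T1 : ∀ s t, |s - t| - ‖γ s - γ t‖ ≤ C₁ * |s - t| ^ 3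
  T2 : ∀ s t, |(|s - t| - ‖γ s - γ t‖) - kap2 γ ((s + t) / 2) * |s - t| ^ 3 / 24| ≤
      C₂ * |s - t| ^ 5
  κle : ∀ s, kap2 γ s ≤ C₂
  κ2 : ∀ s h, |kap2 γ (s + h) + kap2 γ (s - h) - 2 * kap2 γ s| ≤ C₂ * h ^ 2
  κc : Continuous (kap2 γ)
  κ0 : ∀ s, L < |s| → kap2 γ s = 0
  Qmeas : Measurable Q
  Qpos : ∀ x, 0 < x → 0 ≤ Q x
  Qanti : ∀ x y, 0 < x → x ≤ y → Q y ≤ Q x
  GQ : ∀ x y, 0 < x → x ≤ y → |Gk 1 x - Gk 1 y - (y - x) * H y| ≤ (y - x) ^ 2 * Q x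
  Qint : ∀ j : ℕ, 2 ≤ j → IntegrableOn (fun x => x ^ j * Q x) (Ioi 0)
  H3 : ∫ x in Ioi (0 : ℝ), x ^ 3 * H x = 3 / 4

section
variable {γ : ℝ → P} {L k α c C₁ C₂ : ℝ} {H Q : ℝ → ℝ}

theorem kap2_nonneg (s : ℝ) : 0 ≤ kap2 γ s := by unfold kap2; positivity

theorem Dk_exp (X : Dat γ L k α c C₁ C₂ H Q) (s : ℝ) {h : ℝ} (hh : h ≠ 0) :
    |Dk α k γ (s + h) s - α * mu α k / 24 * (kap2 γ (s + h / 2) *
      (|h| ^ 3 * H (mu α k * |h|)))| ≤
    α * (mu α k * C₂ * (|h| ^ 5 * H (mu α k * |h|)) +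
      mu α k ^ 2 * C₁ ^ 2 * (|h| ^ 6 * Q (mu α k * c * |h|))) := by
  have hα := X.toHyp.α0
  have hμ := X.toHyp.μ0
  set μ := mu α k
  have hr : 0 < |h| := abs_pos.2 hh
  have hne : s + h ≠ s := by simpa using hh
  have e0 : s + h - s = h := by ring
  have e1 : (s + h + s) / 2 = s + h / 2 := by ring
  have a1 := dist_pos X.toHyp hne
  have a2 := X.chord (s + h) s
  have a3 := X.chord' (s + h) s
  have a4 := X.T1 (s + h) s
  have a5 := X.T2 (s + h) s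
  rw [e0] at a2 a3 a4 a5
  rw [e1] at a5
  set ρ := ‖γ (s + h) - γ s‖
  set r := |h|
  set κ := kap2 γ (s + h / 2)
  have x0 : 0 < μ * ρ := mul_pos hμ a1
  have xy : μ * ρ ≤ μ * r := mul_le_mul_of_nonneg_left a3 hμ.le
  have b0 : 0 < μ * c * r := mul_pos (mul_pos hμ X.c0) hr
  have b1 : μ * c * r ≤ μ * ρ := by rw [mul_assoc]; exact mul_le_mul_of_nonneg_left a2 hμ.le
  have g1 := X.GQ _ _ x0 xy
  have g2 := X.Qanti _ _ b0 b1
  have g3 := X.Qpos _ x0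
  have g4 := X.Hpos (μ * r) (mul_pos hμ hr)
  have hD : Dk α k γ (s + h) s = α * (Gk 1 (μ * ρ) - Gk 1 (μ * r)) := by
    unfold Dk
    rw [e0, (X.Gpos _ _ hμ a1).2, (X.Gpos _ _ hμ hr).2]
  rw [hD]
  set T := Gk 1 (μ * ρ) - Gk 1 (μ * r)
  have k1 : |T - (μ * r - μ * ρ) * H (μ * r)| ≤ μ ^ 2 * C₁ ^ 2 * (r ^ 6 * Q (μ * c * r)) := by
    refine g1.trans ?_
    have s1 : (μ * r - μ * ρ) ^ 2 ≤ (μ * (C₁ * r ^ 3)) ^ 2 := by
      apply pow_le_pow_left₀ (by linarith)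
      nlinarith
    calc (μ * r - μ * ρ) ^ 2 * Q (μ * ρ) ≤ (μ * (C₁ * r ^ 3)) ^ 2 * Q (μ * c * r) :=
          mul_le_mul s1 g2 g3 (by positivity)
      _ = _ := by ring
  have k2 : |(μ * r - μ * ρ) * H (μ * r) - μ * (κ * r ^ 3 / 24) * H (μ * r)| ≤
      μ * C₂ * (r ^ 5 * H (μ * r)) := by
    have : (μ * r - μ * ρ) * H (μ * r) - μ * (κ * r ^ 3 / 24) * H (μ * r) =
        (μ * H (μ * r)) * ((r - ρ) - κ * r ^ 3 / 24) := by ring
    rw [this, abs_mul, abs_of_nonneg (mul_nonneg hμ.le g4)]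
    calc μ * H (μ * r) * |r - ρ - κ * r ^ 3 / 24| ≤ μ * H (μ * r) * (C₂ * r ^ 5) :=
          mul_le_mul_of_nonneg_left a5 (mul_nonneg hμ.le g4)
      _ = _ := by ring
  have k3 : α * T - α * μ / 24 * (κ * (r ^ 3 * H (μ * r))) =
      α * ((T - (μ * r - μ * ρ) * H (μ * r)) +
        ((μ * r - μ * ρ) * H (μ * r) - μ * (κ * r ^ 3 / 24) * H (μ * r))) := by ring
  rw [k3, abs_mul, abs_of_pos hα]
  refine mul_le_mul_of_nonneg_left ?_ hα.le
  refine (abs_add_le _ _).trans ?_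
  linarith

theorem Dk_far (X : Dat γ L k α c C₁ C₂ H Q) (s : ℝ) {h : ℝ} (hh : h ≠ 0) (hs : L + 1 ≤ |s|) :
    Dk α k γ (s + h) s ≤ α * mu α k * C₁ / (|s| - L) ^ 2 *
      (|h| ^ 5 * H (mu α k * c * |h|)) := by
  have hα := X.toHyp.α0
  have hμ := X.toHyp.μ0
  have hr : 0 < |h| := abs_pos.2 hh
  have hu : 0 < |s| - L := by linarith
  have b0 : 0 < mu α k * c * |h| := mul_pos (mul_pos hμ X.c0) hr
  have g0 := X.Hpos _ b0
  have hC := X.C₁0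
  rcases lt_or_ge |h| (|s| - L) with h1 | h1
  · rw [Dk_symm, Dk_lead X.toHyp s h (by linarith)]
    positivity
  · set μ := mu α k
    have hne : s + h ≠ s := by simpa using hh
    have e0 : s + h - s = h := by ring
    have a1 := dist_pos X.toHyp hne
    have a2 := X.chord (s + h) s
    have a3 := X.chord' (s + h) s
    have a4 := X.T1 (s + h) s
    rw [e0] at a2 a3 a4
    have hD : Dk α k γ (s + h) s = α * (Gk 1 (μ * ‖γ (s + h) - γ s‖) - Gk 1 (μ * |h|)) := by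
      unfold Dk
      rw [e0, (X.Gpos _ _ hμ a1).2, (X.Gpos _ _ hμ hr).2]
    rw [hD]
    set ρ := ‖γ (s + h) - γ s‖
    set r := |h|
    have x0 : 0 < μ * ρ := mul_pos hμ a1
    have xy : μ * ρ ≤ μ * r := mul_le_mul_of_nonneg_left a3 hμ.le
    have b1 : μ * c * r ≤ μ * ρ := by rw [mul_assoc]; exact mul_le_mul_of_nonneg_left a2 hμ.le
    have g1 := X.GH _ _ x0 xy
    have g2 := X.Hanti _ _ b0 b1
    have g3 := X.Hpos _ x0
    have k1 : Gk 1 (μ * ρ) - Gk 1 (μ * r) ≤ μ * (C₁ * r ^ 3) * H (μ * c * r) := by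
      refine g1.trans ?_
      refine mul_le_mul ?_ g2 g3 (by positivity)
      nlinarith
    have k2 : (1 : ℝ) ≤ r ^ 2 / (|s| - L) ^ 2 := by
      rw [le_div_iff₀ (by positivity), one_mul]
      exact pow_le_pow_left₀ hu.le h1 2
    calc α * (Gk 1 (μ * ρ) - Gk 1 (μ * r)) ≤ α * (μ * (C₁ * r ^ 3) * H (μ * c * r)) :=
          mul_le_mul_of_nonneg_left k1 hα.le
      _ = α * (μ * (C₁ * r ^ 3) * H (μ * c * r)) * 1 := (mul_one _).symm
      _ ≤ α * (μ * (C₁ * r ^ 3) * H (μ * c * r)) * (r ^ 2 / (|s| - L) ^ 2) :=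
          mul_le_mul_of_nonneg_left k2 (by positivity)
      _ = _ := by field_simp

theorem int_shift (s : ℝ) : ∫ t, Dk α k γ t s = ∫ h, Dk α k γ (s + h) s :=
  (integral_add_left_eq_self (fun t => Dk α k γ t s) s).symm

theorem int_D (X : Dat γ L k α c C₁ C₂ H Q) (s : ℝ) : Integrable (fun h => Dk α k γ (s + h) s) := by
  have h1 : Integrable (fun t => Dk α k γ t s) := by
    refine (Dk_int_right X.toHyp s).congr (Eventually.of_forall fun t => ?_)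
    exact Dk_symm s t
  exact h1.comp_add_left s

theorem int_sym (X : Dat γ L k α c C₁ C₂ H Q) (s : ℝ) :
    Integrable (fun h => kap2 γ (s + h / 2) * (|h| ^ 3 * H (mu α k * |h|))) ∧
    |(∫ h, kap2 γ (s + h / 2) * (|h| ^ 3 * H (mu α k * |h|))) -
      kap2 γ s * (3 / (2 * mu α k ^ 4))| ≤
      C₂ * (∫ x in Ioi (0 : ℝ), x ^ 5 * H x) / (4 * mu α k ^ 6) := by
  have hμ := X.toHyp.μ0
  set μ := mu α k
  have hC := X.C₂0
  obtain ⟨i3, v3⟩ := momAbs (X.Hint 3 (by norm_num)) hμ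
  obtain ⟨i5, v5⟩ := momAbs (X.Hint 5 (by norm_num)) hμ
  rw [X.H3] at v3
  have hw : ∀ h : ℝ, h ≠ 0 → 0 ≤ |h| ^ 3 * H (μ * |h|) := by
    intro h hh
    have := X.Hpos (μ * |h|) (mul_pos hμ (abs_pos.2 hh))
    positivity
  have hf : Integrable (fun h => kap2 γ (s + h / 2) * (|h| ^ 3 * H (μ * |h|))) := by
    refine (i3.const_mul C₂).mono' ?_ ?_
    · apply Measurable.aestronglyMeasurable
      have h1 : Measurable (fun h : ℝ => kap2 γ (s + h / 2)) :=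
        (X.κc.comp (by fun_prop : Continuous fun h : ℝ => s + h / 2)).measurable
      have h2 : Measurable (fun h : ℝ => H (μ * |h|)) :=
        X.Hmeas.comp (by fun_prop)
      exact h1.mul ((by fun_prop : Measurable fun h : ℝ => |h| ^ 3).mul h2)
    · filter_upwards [Pool.Agent.E8helper57.LC.ae_ne 0] with h hh
      rw [Real.norm_of_nonneg (mul_nonneg (kap2_nonneg _) (hw h hh))]
      exact mul_le_mul_of_nonneg_right (X.κle _) (hw h hh)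
  refine ⟨hf, ?_⟩
  set J := ∫ h, kap2 γ (s + h / 2) * (|h| ^ 3 * H (μ * |h|)) with hJ
  have hf' : Integrable (fun h => kap2 γ (s - h / 2) * (|h| ^ 3 * H (μ * |h|))) := by
    have := hf.comp_neg
    simpa [neg_div, sub_eq_add_neg] using this
  have hJ' : J = ∫ h, kap2 γ (s - h / 2) * (|h| ^ 3 * H (μ * |h|)) := by
    rw [hJ, ← integral_neg_eq_self]
    simp [neg_div, sub_eq_add_neg]
  have k1 : 2 * J - 2 * kap2 γ s * (∫ h : ℝ, |h| ^ 3 * H (μ * |h|)) =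
      ∫ h, (kap2 γ (s + h / 2) + kap2 γ (s - h / 2) - 2 * kap2 γ s) *
        (|h| ^ 3 * H (μ * |h|)) := by
    have e : ∀ h : ℝ, (kap2 γ (s + h / 2) + kap2 γ (s - h / 2) - 2 * kap2 γ s) *
        (|h| ^ 3 * H (μ * |h|)) = (kap2 γ (s + h / 2) * (|h| ^ 3 * H (μ * |h|)) +
          kap2 γ (s - h / 2) * (|h| ^ 3 * H (μ * |h|))) -
          2 * kap2 γ s * (|h| ^ 3 * H (μ * |h|)) := fun h => by ring
    have hadd : Integrable (fun h : ℝ => kap2 γ (s + h / 2) * (|h| ^ 3 * H (μ * |h|)) +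
        kap2 γ (s - h / 2) * (|h| ^ 3 * H (μ * |h|))) := hf.add hf'
    simp_rw [e]
    rw [integral_sub hadd (i3.const_mul _), integral_add hf hf', integral_const_mul,
      ← hJ', ← hJ]
    ring
  have k2 : |2 * J - 2 * kap2 γ s * (∫ h : ℝ, |h| ^ 3 * H (μ * |h|))| ≤
      ∫ h : ℝ, C₂ / 4 * (|h| ^ 5 * H (μ * |h|)) := by
    rw [k1, ← Real.norm_eq_abs]
    refine norm_integral_le_of_norm_le (i5.const_mul _) ?_
    filter_upwards [Pool.Agent.E8helper57.LC.ae_ne 0] with h hh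
    rw [norm_mul, Real.norm_of_nonneg (hw h hh), Real.norm_eq_abs]
    have k3 := X.κ2 s (h / 2)
    calc |kap2 γ (s + h / 2) + kap2 γ (s - h / 2) - 2 * kap2 γ s| * (|h| ^ 3 * H (μ * |h|)) ≤
        (C₂ * (h / 2) ^ 2) * (|h| ^ 3 * H (μ * |h|)) :=
          mul_le_mul_of_nonneg_right k3 (hw h hh)
      _ = C₂ / 4 * (|h| ^ 5 * H (μ * |h|)) := by
          have : h ^ 2 = |h| ^ 2 := (sq_abs h).symm
          rw [div_pow, this]
          ring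
  rw [integral_const_mul, v5, v3] at k2
  have e1 : J - kap2 γ s * (3 / (2 * μ ^ 4)) =
      (2 * J - 2 * kap2 γ s * (2 * (3 / 4) / μ ^ (3 + 1))) / 2 := by
    field_simp
    ring
  rw [e1, abs_div, abs_two, div_le_iff₀ (by norm_num : (0 : ℝ) < 2)]
  refine k2.trans (le_of_eq ?_)
  field_simp

/-- the constant -/
noncomputable def KA (k c C₁ C₂ : ℝ) (H Q : ℝ → ℝ) : ℝ :=
  243 * (C₂ * (∫ x in Ioi (0 : ℝ), x ^ 5 * H x) * (1 + 1 / 192) +
    C₁ ^ 2 * (∫ x in Ioi (0 : ℝ), x ^ 6 * Q x) / c ^ 7 +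
    C₁ * (∫ x in Ioi (0 : ℝ), x ^ 5 * H x) / c ^ 6) + 81 / 8 * k ^ 2 * C₂

theorem m5_nonneg (X : Dat γ L k α c C₁ C₂ H Q) : 0 ≤ ∫ x in Ioi (0 : ℝ), x ^ 5 * H x :=
  setIntegral_nonneg measurableSet_Ioi fun x hx => by
    have hx' : 0 < x := hx
    have := X.Hpos x hx'
    positivity

theorem m6_nonneg (X : Dat γ L k α c C₁ C₂ H Q) : 0 ≤ ∫ x in Ioi (0 : ℝ), x ^ 6 * Q x :=
  setIntegral_nonneg measurableSet_Ioi fun x hx => by
    have hx' : 0 < x := hx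
    have := X.Qpos x hx'
    positivity

theorem mu_bd (hk : 0 < k) (hα : 4 * k ≤ α) : α / 3 ≤ mu α k ∧ mu α k ≤ α / 2 ∧
    mu α k ^ 2 = α ^ 2 / 4 - k ^ 2 := by
  have h0 : 0 ≤ α ^ 2 / 4 - k ^ 2 := by nlinarith
  have h1 : mu α k ^ 2 = α ^ 2 / 4 - k ^ 2 := Real.sq_sqrt h0
  refine ⟨?_, ?_, h1⟩
  · apply Real.le_sqrt_of_sq_le
    nlinarith
  · have : mu α k ≤ √((α / 2) ^ 2) := Real.sqrt_le_sqrt (by nlinarith [sq_nonneg k])
    rwa [Real.sqrt_sq (by linarith)] at this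

theorem ratio_bd {α μ : ℝ} (hα : 0 < α) (h : α / 3 ≤ μ) : α ^ 3 / μ ^ 5 ≤ 243 / α ^ 2 := by
  have hμ : 0 < μ := by linarith [div_pos hα (by norm_num : (0 : ℝ) < 3)]
  rw [div_le_div_iff₀ (by positivity) (by positivity)]
  have : (α / 3) ^ 5 ≤ μ ^ 5 := pow_le_pow_left₀ (by positivity) h 5
  nlinarith [this]

theorem cube_bd {α μ k : ℝ} (hα : 0 < α) (h1 : α / 3 ≤ μ) (h2 : μ ≤ α / 2)
    (h3 : μ ^ 2 = α ^ 2 / 4 - k ^ 2) :
    |α ^ 3 / (32 * μ ^ 3) - 1 / 4| ≤ 81 / 8 * k ^ 2 / α ^ 2 := by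
  have hμ : 0 < μ := by linarith [div_pos hα (by norm_num : (0 : ℝ) < 3)]
  have e : α ^ 3 / (32 * μ ^ 3) - 1 / 4 = (α ^ 3 - 8 * μ ^ 3) / (32 * μ ^ 3) := by
    field_simp
    ring
  have k1 : (α - 2 * μ) * (α + 2 * μ) = 4 * k ^ 2 := by nlinarith
  have k2 : 0 ≤ α - 2 * μ := by linarith
  have k3 : (α - 2 * μ) * α ≤ 4 * k ^ 2 := by nlinarith
  have k4 : α ^ 3 - 8 * μ ^ 3 = (α - 2 * μ) * (α ^ 2 + 2 * α * μ + 4 * μ ^ 2) := by ring
  have k5 : α ^ 2 + 2 * α * μ + 4 * μ ^ 2 ≤ 3 * α ^ 2 := by nlinarith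
  have k6 : 0 ≤ α ^ 3 - 8 * μ ^ 3 := by rw [k4]; positivity
  have k7 : α ^ 3 - 8 * μ ^ 3 ≤ 12 * k ^ 2 * α := by
    rw [k4]
    calc (α - 2 * μ) * (α ^ 2 + 2 * α * μ + 4 * μ ^ 2) ≤ (α - 2 * μ) * (3 * α ^ 2) :=
          mul_le_mul_of_nonneg_left k5 k2
      _ = 3 * α * ((α - 2 * μ) * α) := by ring
      _ ≤ 3 * α * (4 * k ^ 2) := mul_le_mul_of_nonneg_left k3 (by positivity)
      _ = _ := by ring
  rw [e, abs_of_nonneg (by positivity), div_le_div_iff₀ (by positivity) (by positivity)]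
  have k8 : (α / 3) ^ 3 ≤ μ ^ 3 := pow_le_pow_left₀ (by positivity) h1 3
  calc (α ^ 3 - 8 * μ ^ 3) * α ^ 2 ≤ (12 * k ^ 2 * α) * α ^ 2 :=
        mul_le_mul_of_nonneg_right k7 (by positivity)
    _ = 81 / 8 * k ^ 2 * (32 * (α / 3) ^ 3) := by ring
    _ ≤ 81 / 8 * k ^ 2 * (32 * μ ^ 3) := by
        apply mul_le_mul_of_nonneg_left _ (by positivity)
        linarith

theorem ptA (X : Dat γ L k α c C₁ C₂ H Q) (hα4 : 4 * k ≤ α) (s : ℝ) :
    |α ^ 2 / 2 * (∫ t, Dk α k γ t s) - kap2 γ s / 4| ≤ KA k c C₁ C₂ H Q / α ^ 2 := by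
  have hα := X.toHyp.α0
  have hμ := X.toHyp.μ0
  have hc := X.c0
  obtain ⟨b1, b2, b3⟩ := mu_bd X.hk hα4
  have hm5 := m5_nonneg X
  have hm6 := m6_nonneg X
  obtain ⟨hf, hsym⟩ := int_sym X s
  have hcu := cube_bd hα b1 b2 b3
  have hra := ratio_bd hα b1
  set μ := mu α k
  have hcμ : 0 < μ * c := mul_pos hμ hc
  obtain ⟨i5, v5⟩ := momAbs (X.Hint 5 (by norm_num)) hμ
  obtain ⟨i6, v6⟩ := momAbs (X.Qint 6 (by norm_num)) hcμ
  set m5 := ∫ x in Ioi (0 : ℝ), x ^ 5 * H x with hm5d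
  set m6 := ∫ x in Ioi (0 : ℝ), x ^ 6 * Q x with hm6d
  set J := ∫ h, kap2 γ (s + h / 2) * (|h| ^ 3 * H (μ * |h|)) with hJ
  set I := ∫ t, Dk α k γ t s with hI
  set κ := kap2 γ s with hκ
  have iE : Integrable (fun h : ℝ => α * (μ * C₂ * (|h| ^ 5 * H (μ * |h|)) +
      μ ^ 2 * C₁ ^ 2 * (|h| ^ 6 * Q (μ * c * |h|)))) :=
    ((i5.const_mul _).add (i6.const_mul _)).const_mul _
  have k1 : |I - α * μ / 24 * J| ≤ α * (μ * C₂ * (2 * m5 / μ ^ (5 + 1)) +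
      μ ^ 2 * C₁ ^ 2 * (2 * m6 / (μ * c) ^ (6 + 1))) := by
    have e : I - α * μ / 24 * J = ∫ h, (Dk α k γ (s + h) s -
        α * μ / 24 * (kap2 γ (s + h / 2) * (|h| ^ 3 * H (μ * |h|)))) := by
      rw [integral_sub (int_D X s) (hf.const_mul _), integral_const_mul, hI, int_shift]
    have e2 : α * (μ * C₂ * (2 * m5 / μ ^ (5 + 1)) +
      μ ^ 2 * C₁ ^ 2 * (2 * m6 / (μ * c) ^ (6 + 1))) =
        ∫ h : ℝ, α * (μ * C₂ * (|h| ^ 5 * H (μ * |h|)) +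
          μ ^ 2 * C₁ ^ 2 * (|h| ^ 6 * Q (μ * c * |h|))) := by
      rw [integral_const_mul, integral_add (i5.const_mul _) (i6.const_mul _),
        integral_const_mul, integral_const_mul, v5, v6]
    rw [e, e2, ← Real.norm_eq_abs]
    refine norm_integral_le_of_norm_le iE ?_
    filter_upwards [Pool.Agent.E8helper57.LC.ae_ne 0] with h hh
    rw [Real.norm_eq_abs]
    exact Dk_exp X s hh
  have k2 : α ^ 2 / 2 * I - κ / 4 = α ^ 2 / 2 * (I - α * μ / 24 * J) +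
      α ^ 3 * μ / 48 * (J - κ * (3 / (2 * μ ^ 4))) + κ * (α ^ 3 / (32 * μ ^ 3) - 1 / 4) := by
    field_simp
    ring
  have hκ0 : 0 ≤ κ := kap2_nonneg s
  have hκ1 : κ ≤ C₂ := X.κle s
  have hC2 := X.C₂0
  have p1 : |α ^ 2 / 2 * (I - α * μ / 24 * J)| ≤
      α ^ 3 / μ ^ 5 * (C₂ * m5 + C₁ ^ 2 * m6 / c ^ 7) := by
    rw [abs_mul, abs_of_pos (by positivity : (0 : ℝ) < α ^ 2 / 2)]
    refine (mul_le_mul_of_nonneg_left k1 (by positivity)).trans (le_of_eq ?_)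
    field_simp
    ring
  have p2 : |α ^ 3 * μ / 48 * (J - κ * (3 / (2 * μ ^ 4)))| ≤
      α ^ 3 / μ ^ 5 * (C₂ * m5 / 192) := by
    rw [abs_mul, abs_of_pos (by positivity : (0 : ℝ) < α ^ 3 * μ / 48)]
    refine (mul_le_mul_of_nonneg_left hsym (by positivity)).trans (le_of_eq ?_)
    field_simp
    ring
  have p3 : |κ * (α ^ 3 / (32 * μ ^ 3) - 1 / 4)| ≤ C₂ * (81 / 8 * k ^ 2 / α ^ 2) := by
    rw [abs_mul, abs_of_nonneg hκ0]
    exact mul_le_mul hκ1 hcu (abs_nonneg _) hC2.le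
  have q1 : α ^ 3 / μ ^ 5 * (C₂ * m5 + C₁ ^ 2 * m6 / c ^ 7) ≤
      243 / α ^ 2 * (C₂ * m5 + C₁ ^ 2 * m6 / c ^ 7) :=
    mul_le_mul_of_nonneg_right hra (by positivity)
  have q2 : α ^ 3 / μ ^ 5 * (C₂ * m5 / 192) ≤ 243 / α ^ 2 * (C₂ * m5 / 192) :=
    mul_le_mul_of_nonneg_right hra (by positivity)
  have q3 : 0 ≤ 243 / α ^ 2 * (C₁ * m5 / c ^ 6) := by
    have := X.C₁0
    positivity
  rw [k2]
  refine (abs_add_le _ _).trans ((add_le_add (abs_add_le _ _) le_rfl).trans ?_)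
  have : KA k c C₁ C₂ H Q / α ^ 2 = 243 / α ^ 2 * (C₂ * m5 + C₁ ^ 2 * m6 / c ^ 7) +
      243 / α ^ 2 * (C₂ * m5 / 192) + C₂ * (81 / 8 * k ^ 2 / α ^ 2) +
      243 / α ^ 2 * (C₁ * m5 / c ^ 6) := by
    unfold KA
    rw [← hm5d, ← hm6d]
    field_simp
    ring
  rw [this]
  linarith

theorem ptB (X : Dat γ L k α c C₁ C₂ H Q) (hα4 : 4 * k ≤ α) (s : ℝ) (hs : L + 1 ≤ |s|) :
    |α ^ 2 / 2 * (∫ t, Dk α k γ t s) - kap2 γ s / 4| ≤
      KA k c C₁ C₂ H Q / α ^ 2 / (|s| - L) ^ 2 := by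
  have hα := X.toHyp.α0
  have hμ := X.toHyp.μ0
  have hc := X.c0
  have hC1 := X.C₁0
  have hC2 := X.C₂0
  obtain ⟨b1, b2, b3⟩ := mu_bd X.hk hα4
  have hm5 := m5_nonneg X
  have hm6 := m6_nonneg X
  have hra := ratio_bd hα b1
  set μ := mu α k
  have hcμ : 0 < μ * c := mul_pos hμ hc
  obtain ⟨i5, v5⟩ := momAbs (X.Hint 5 (by norm_num)) hcμ
  set m5 := ∫ x in Ioi (0 : ℝ), x ^ 5 * H x with hm5d
  set m6 := ∫ x in Ioi (0 : ℝ), x ^ 6 * Q x with hm6d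
  have hu : 0 < |s| - L := by linarith
  rw [X.κ0 s (by linarith), zero_div, sub_zero, int_shift]
  have k0 : 0 ≤ ∫ h, Dk α k γ (s + h) s :=
    integral_nonneg fun h => (Dk_bd X.toHyp (s + h) s).1
  have k1 : ∫ h, Dk α k γ (s + h) s ≤
      α * μ * C₁ / (|s| - L) ^ 2 * (2 * m5 / (μ * c) ^ (5 + 1)) := by
    rw [← v5, ← integral_const_mul]
    refine integral_mono_of_nonneg (Eventually.of_forall fun h => (Dk_bd X.toHyp (s + h) s).1)
      (i5.const_mul _) ?_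
    filter_upwards [Pool.Agent.E8helper57.LC.ae_ne 0] with h hh
    exact Dk_far X s hh hs
  rw [abs_of_nonneg (by positivity)]
  have k2 : α ^ 2 / 2 * (∫ h, Dk α k γ (s + h) s) ≤
      α ^ 3 / μ ^ 5 * (C₁ * m5 / c ^ 6) / (|s| - L) ^ 2 := by
    refine (mul_le_mul_of_nonneg_left k1 (by positivity)).trans (le_of_eq ?_)
    field_simp
    ring
  refine k2.trans ?_
  refine div_le_div_of_nonneg_right ?_ (by positivity)
  refine (mul_le_mul_of_nonneg_right hra (by positivity)).trans ?_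
  have : KA k c C₁ C₂ H Q / α ^ 2 = 243 / α ^ 2 * (C₂ * m5 + C₁ ^ 2 * m6 / c ^ 7) +
      243 / α ^ 2 * (C₂ * m5 / 192) + C₂ * (81 / 8 * k ^ 2 / α ^ 2) +
      243 / α ^ 2 * (C₁ * m5 / c ^ 6) := by
    unfold KA
    rw [← hm5d, ← hm6d]
    field_simp
    ring
  rw [this]
  have q1 : 0 ≤ 243 / α ^ 2 * (C₂ * m5 + C₁ ^ 2 * m6 / c ^ 7) := by positivity
  have q2 : 0 ≤ 243 / α ^ 2 * (C₂ * m5 / 192) := by positivity
  have q3 : 0 ≤ C₂ * (81 / 8 * k ^ 2 / α ^ 2) := by positivity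
  linarith

theorem KA_nonneg (X : Dat γ L k α c C₁ C₂ H Q) : 0 ≤ KA k c C₁ C₂ H Q := by
  have hm5 := m5_nonneg X
  have hm6 := m6_nonneg X
  have hC1 := X.C₁0
  have hC2 := X.C₂0
  have hc := X.c0
  unfold KA
  positivity

theorem pt (X : Dat γ L k α c C₁ C₂ H Q) (hα4 : 4 * k ≤ α) (s : ℝ) :
    |α ^ 2 / 2 * (∫ t, Dk α k γ t s) - kap2 γ s / 4| ≤
      KA k c C₁ C₂ H Q / α ^ 2 * ((L + 1) ^ 2 + 1) * (1 + s ^ 2)⁻¹ := by
  have hα := X.toHyp.α0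
  have hK := KA_nonneg X
  have hL := X.crv.pos
  have hK' : 0 ≤ KA k c C₁ C₂ H Q / α ^ 2 := by positivity
  rcases le_or_gt (L + 1) |s| with h | h
  · refine (ptB X hα4 s h).trans ?_
    rw [div_eq_mul_inv, mul_assoc]
    refine mul_le_mul_of_nonneg_left ?_ hK'
    have hu : 1 ≤ |s| - L := by linarith
    rw [← div_eq_mul_inv, inv_eq_one_div, div_le_div_iff₀ (by positivity) (by positivity), one_mul]
    have e : s ^ 2 = ((|s| - L) + L) ^ 2 := by rw [sub_add_cancel, sq_abs]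
    rw [e]
    nlinarith [mul_nonneg hL.le (by linarith : 0 ≤ |s| - L - 1), sq_nonneg (|s| - L - 1)]
  · refine (ptA X hα4 s).trans ?_
    rw [mul_assoc]
    refine le_mul_of_one_le_right hK' ?_
    rw [← div_eq_mul_inv, le_div_iff₀ (by positivity), one_mul]
    have : s ^ 2 ≤ (L + 1) ^ 2 := by
      rw [← sq_abs s]
      exact pow_le_pow_left₀ (abs_nonneg _) h.le 2
    linarith

end

theorem t_D2B (h : S_CHORD) (h2 : S_TAY) (h3 : S_G) (h4 : S_TAY2) : S_D2B := by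
  intro γ L k hγ hne hk
  obtain ⟨c, hc0, hc1, hc⟩ := h γ L hγ hne
  obtain ⟨C₁, hC₁, a1, a2, a3, a4, a5⟩ := h2 γ L hγ
  obtain ⟨C₂, hC₂, b1, b2, b3, b4⟩ := h4 γ L hγ
  obtain ⟨g1, g2, g3, g4, g5, H, Q, g6, g7, g8, g9, g10, g11, g12, g13, g14⟩ := h3
  have hX : ∀ α, 4 * k ≤ α → Dat γ L k α c C₁ C₂ H Q := by
    intro α hα
    exact
      { crv := hγ
        hk := hk
        hα := by linarith
        c0 := hc0
        chord := hc
        chord' := a1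
        Gpos := g1
        Gcont := g2
        Ganti := g3
        Gint := g5
        Hmeas := g6
        Hpos := fun x hx => (g8 x hx).1
        Hanti := fun x y hx hxy => (g9 x y hx hxy).1
        GH := g10
        Hint := g12
        C₁0 := hC₁
        C₂0 := hC₂
        T1 := a2
        T2 := b1
        κle := b2
        κ2 := b4
        κc := a4
        κ0 := a5
        Qmeas := g7
        Qpos := fun x hx => (g8 x hx).2
        Qanti := fun x y hx hxy => (g9 x y hx hxy).2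
        GQ := g11
        Qint := g13
        H3 := g14 }
  have hK := KA_nonneg (hX (4 * k) le_rfl)
  have hL := hγ.pos
  refine ⟨4 * k, KA k c C₁ C₂ H Q * ((L + 1) ^ 2 + 1) * π + 1, by linarith, by positivity, ?_⟩
  intro α hα
  have hα0 : 0 < α := by linarith
  have h1 : ∫ s, |α ^ 2 / 2 * (∫ t, Dk α k γ t s) - kap2 γ s / 4| ≤
      ∫ s : ℝ, KA k c C₁ C₂ H Q / α ^ 2 * ((L + 1) ^ 2 + 1) * (1 + s ^ 2)⁻¹ := by
    refine integral_mono_of_nonneg (Eventually.of_forall fun s => abs_nonneg _)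
      (integrable_inv_one_add_sq.const_mul _) (Eventually.of_forall fun s => ?_)
    exact pt (hX α hα) hα s
  refine h1.trans ?_
  rw [integral_const_mul, integral_univ_inv_one_add_sq]
  have : KA k c C₁ C₂ H Q / α ^ 2 * ((L + 1) ^ 2 + 1) * π =
      KA k c C₁ C₂ H Q * ((L + 1) ^ 2 + 1) * π / α ^ 2 := by ring
  rw [this]
  refine div_le_div_of_nonneg_right ?_ (by positivity)
  linarith

end Pool.Agent.E8helper71.LC
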