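import Pool.Agent.E8helper19.LC.Stm3
import Pool.Agent.E8helper71.LC.D2b

/-!
# Project LC (MP_862eda_mp): `(α²/2) D - κ²/4` on functions of class `C²`
-/

set_option autoImplicit false
open MeasureTheory Filter Topology Set
open scoped ContDiff Real

namespace Pool.Agent.E8helper71.LC

open Pool.Agent.E8helper19.LC

theorem taylor2 {g : ℝ → ℂ} (hg : ContDiff ℝ 2 g) {M2 : ℝ}
    (h2 : ∀ s, ‖deriv (deriv g) s‖ ≤ M2) (s t : ℝ) :
    ‖g t - g s - ((t - s : ℝ) : ℂ) * deriv g s‖ ≤ M2 * |t - s| ^ 2 := by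
  have hM : 0 ≤ M2 := (norm_nonneg _).trans (h2 0)
  have hd : Differentiable ℝ g := hg.differentiable (by norm_num)
  have hd' : Differentiable ℝ (deriv g) := by
    have hg' : ContDiff ℝ (1 + 1) g := by
      have e : (1 + 1 : WithTop ℕ∞) = 2 := one_add_one_eq_two
      rw [e]
      exact hg
    exact (contDiff_succ_iff_deriv.1 hg').2.2.differentiable (by norm_num)
  have e1 : ∀ x : ℝ, ‖deriv g x - deriv g s‖ ≤ M2 * |x - s| := fun x => by
    have := Convex.norm_image_sub_le_of_norm_deriv_le (f := deriv g) (C := M2) (s := univ)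
      (x := s) (y := x) (fun y _ => hd' y) (fun y _ => h2 y) convex_univ (mem_univ _) (mem_univ _)
    simpa [Real.norm_eq_abs] using this
  have e2 : ∀ x ∈ uIcc s t, HasDerivWithinAt (fun x : ℝ => g x - ((x - s : ℝ) : ℂ) * deriv g s)
      (deriv g x - deriv g s) (uIcc s t) x := fun x _ => by
    have a1 : HasDerivAt g (deriv g x) x := (hd x).hasDerivAt
    have a2 : HasDerivAt (fun x : ℝ => ((x - s : ℝ) : ℂ)) 1 x := by
      have := ((hasDerivAt_id x).sub_const s).ofReal_comp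
      simpa using this
    have a3 := a1.sub (a2.mul_const (deriv g s))
    rw [one_mul] at a3
    exact a3.hasDerivWithinAt
  have e3 : ∀ x ∈ uIcc s t, ‖deriv g x - deriv g s‖ ≤ M2 * |t - s| := fun x hx => by
    refine (e1 x).trans (mul_le_mul_of_nonneg_left ?_ hM)
    exact abs_sub_left_of_mem_uIcc hx
  have e4 := Convex.norm_image_sub_le_of_norm_hasDerivWithin_le e2 e3 (convex_uIcc s t)
    left_mem_uIcc right_mem_uIcc
  have e5 : (g t - ((t - s : ℝ) : ℂ) * deriv g s) - (g s - ((s - s : ℝ) : ℂ) * deriv g s) =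
      g t - g s - ((t - s : ℝ) : ℂ) * deriv g s := by
    simp
    ring
  rw [e5] at e4
  refine e4.trans (le_of_eq ?_)
  rw [Real.norm_eq_abs]
  ring

/-- the pointwise expansion -/
theorem op_pt {γ : ℝ → P} {k α : ℝ} (hα : 0 < α) {g : ℝ → ℂ} (hg : ContDiff ℝ 2 g)
    {M0 M1 M2 : ℝ} (h0 : ∀ s, ‖g s‖ ≤ M0) (h1 : ∀ s, ‖deriv g s‖ ≤ M1)
    (h2 : ∀ s, ‖deriv (deriv g) s‖ ≤ M2) (s a : ℝ)
    (hD0 : ∀ s t, 0 ≤ Dk α k γ s t)
    (i0 : Integrable (fun t => Dk α k γ s t))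
    (i2 : Integrable (fun t => Dk α k γ s t * |s - t| ^ 2)) :
    ‖((α ^ 2 / 2 : ℝ) : ℂ) * DD α k γ g s - ((kap2 γ s / 4 : ℝ) : ℂ) * g s‖ ≤
      |α ^ 2 / 2 * (∫ t, Dk α k γ s t) - a * kap2 γ s| * M0 + |a - 1 / 4| * kap2 γ s * M0 +
        α ^ 2 / 2 * M1 * |∫ t, (t - s) * Dk α k γ s t| +
        α ^ 2 / 2 * M2 * ∫ t, Dk α k γ s t * |s - t| ^ 2 := by
  have hM0 : 0 ≤ M0 := (norm_nonneg _).trans (h0 0)
  have hM1 : 0 ≤ M1 := (norm_nonneg _).trans (h1 0)
  have hM2 : 0 ≤ M2 := (norm_nonneg _).trans (h2 0)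
  have i1 : Integrable (fun t => (t - s) * Dk α k γ s t) := by
    refine (i0.add i2).mono' ?_ (Eventually.of_forall fun t => ?_)
    · exact ((measurable_id.sub_const s).aestronglyMeasurable).mul i0.aestronglyMeasurable
    · have h3 := hD0 s t
      rw [Real.norm_eq_abs, abs_mul, abs_of_nonneg h3, Pi.add_apply, abs_sub_comm s t]
      have h4 : |t - s| ≤ 1 + |t - s| ^ 2 := by nlinarith [sq_nonneg (|t - s| - 1), abs_nonneg (t - s)]
      nlinarith [mul_le_mul_of_nonneg_right h4 h3]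
  have ig : Integrable (fun t => ((Dk α k γ s t : ℝ) : ℂ) * g t) := by
    refine (i0.ofReal (𝕜 := ℂ)).mul_bdd (c := M0) hg.continuous.aestronglyMeasurable
      (Eventually.of_forall h0)
  have ic0 : Integrable (fun t => ((Dk α k γ s t : ℝ) : ℂ) * g s) :=
    (i0.ofReal (𝕜 := ℂ)).mul_const _
  have ic1 : Integrable (fun t => (((t - s) * Dk α k γ s t : ℝ) : ℂ) * deriv g s) :=
    (i1.ofReal (𝕜 := ℂ)).mul_const _
  have c0 : ∫ t, ((Dk α k γ s t : ℝ) : ℂ) * g s = ((∫ t, Dk α k γ s t : ℝ) : ℂ) * g s := by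
    rw [integral_mul_const, integral_complex_ofReal]
  have c1 : ∫ t, (((t - s) * Dk α k γ s t : ℝ) : ℂ) * deriv g s =
      ((∫ t, (t - s) * Dk α k γ s t : ℝ) : ℂ) * deriv g s := by
    rw [integral_mul_const, integral_complex_ofReal]
  have hR : ‖∫ t, ((Dk α k γ s t : ℝ) : ℂ) * (g t - g s - ((t - s : ℝ) : ℂ) * deriv g s)‖ ≤
      ∫ t, M2 * (Dk α k γ s t * |s - t| ^ 2) := by
    refine norm_integral_le_of_norm_le (i2.const_mul M2) (Eventually.of_forall fun t => ?_)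
    rw [norm_mul, Complex.norm_real, Real.norm_of_nonneg (hD0 s t)]
    have := mul_le_mul_of_nonneg_left (taylor2 hg h2 s t) (hD0 s t)
    rw [abs_sub_comm t s] at this
    linarith
  rw [integral_const_mul] at hR
  have hdec : DD α k γ g s = ((∫ t, Dk α k γ s t : ℝ) : ℂ) * g s +
      ((∫ t, (t - s) * Dk α k γ s t : ℝ) : ℂ) * deriv g s +
      ∫ t, ((Dk α k γ s t : ℝ) : ℂ) * (g t - g s - ((t - s : ℝ) : ℂ) * deriv g s) := by
    have e : ∀ t, ((Dk α k γ s t : ℝ) : ℂ) * (g t - g s - ((t - s : ℝ) : ℂ) * deriv g s) =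
        ((Dk α k γ s t : ℝ) : ℂ) * g t - ((Dk α k γ s t : ℝ) : ℂ) * g s -
          (((t - s) * Dk α k γ s t : ℝ) : ℂ) * deriv g s := fun t => by
      push_cast
      ring
    have hsub : Integrable (fun t => ((Dk α k γ s t : ℝ) : ℂ) * g t -
        ((Dk α k γ s t : ℝ) : ℂ) * g s) := ig.sub ic0
    simp_rw [e]
    rw [integral_sub hsub ic1, integral_sub ig ic0, c0, c1]
    unfold DD
    ring
  set R := ∫ t, ((Dk α k γ s t : ℝ) : ℂ) * (g t - g s - ((t - s : ℝ) : ℂ) * deriv g s)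
  set I0 := ∫ t, Dk α k γ s t
  set I1 := ∫ t, (t - s) * Dk α k γ s t
  have hdec2 : ((α ^ 2 / 2 : ℝ) : ℂ) * DD α k γ g s - ((kap2 γ s / 4 : ℝ) : ℂ) * g s =
      ((α ^ 2 / 2 * I0 - a * kap2 γ s : ℝ) : ℂ) * g s + (((a - 1 / 4) * kap2 γ s : ℝ) : ℂ) * g s +
      ((α ^ 2 / 2 * I1 : ℝ) : ℂ) * deriv g s + ((α ^ 2 / 2 : ℝ) : ℂ) * R := by
    rw [hdec]
    push_cast
    ring
  rw [hdec2]
  refine (norm_add_le _ _).trans (add_le_add ((norm_add_le _ _).trans
    (add_le_add ((norm_add_le _ _).trans (add_le_add ?_ ?_)) ?_)) ?_)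
  · rw [norm_mul, Complex.norm_real, Real.norm_eq_abs]
    exact mul_le_mul_of_nonneg_left (h0 s) (abs_nonneg _)
  · rw [norm_mul, Complex.norm_real, Real.norm_eq_abs, abs_mul,
      abs_of_nonneg (kap2_nonneg (γ := γ) s)]
    exact mul_le_mul_of_nonneg_left (h0 s) (mul_nonneg (abs_nonneg _) (kap2_nonneg s))
  · rw [norm_mul, Complex.norm_real, Real.norm_eq_abs, abs_mul,
      abs_of_pos (by positivity : (0 : ℝ) < α ^ 2 / 2)]
    refine (mul_le_mul_of_nonneg_left (h1 s) (by positivity)).trans (le_of_eq ?_)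
    ring
  · rw [norm_mul, Complex.norm_real, Real.norm_of_nonneg (by positivity : (0 : ℝ) ≤ α ^ 2 / 2)]
    refine (mul_le_mul_of_nonneg_left hR (by positivity)).trans (le_of_eq ?_)
    ring

/-- LC36 -/
theorem t_OP (h : S_U1) (h2 : S_U2) (h3 : S_U3) (h4 : S_D3) (h5 : S_TAY) : S_OP := by
  intro γ L hγ hd
  obtain ⟨C1, hC1, u1⟩ := h γ L hγ hd
  obtain ⟨C2, hC2, u2⟩ := h2 γ L hγ hd
  obtain ⟨C3, hC3, u3⟩ := h3 γ L hγ hd
  obtain ⟨-, -, -, -, -, hκc, hκ0⟩ := h5 γ L hγ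
  have hκs : HasCompactSupport (kap2 γ) := by
    refine HasCompactSupport.of_support_subset_isCompact (K := Icc (-L) L) isCompact_Icc ?_
    intro x hx
    by_contra hx'
    apply hx
    apply hκ0
    rw [mem_Icc, not_and_or, not_le, not_le] at hx'
    rw [lt_abs]
    rcases hx' with hx' | hx'
    · right; linarith
    · left; exact hx'
  have hκi : Integrable (kap2 γ) := hκc.integrable_of_hasCompactSupport hκs
  set K := ∫ s, kap2 γ s with hK
  have hK0 : 0 ≤ K := integral_nonneg fun s => kap2_nonneg s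
  refine ⟨C1 + C2 + C3 + 81 / 8 * K, by positivity, ?_⟩
  intro k hk
  obtain ⟨A1, hA1, v1⟩ := u1 k hk
  obtain ⟨A2, hA2, v2⟩ := u2 k hk
  obtain ⟨A3, hA3, v3⟩ := u3 k hk
  refine ⟨max (max A1 A2) (max A3 (4 * k)), lt_of_lt_of_le hA1 ((le_max_left _ _).trans
    (le_max_left _ _)), ?_⟩
  intro α hα g M0 M1 M2 hg hM0 hM1 hM2
  have hα1 : A1 ≤ α := ((le_max_left _ _).trans (le_max_left _ _)).trans hα
  have hα2 : A2 ≤ α := ((le_max_right _ _).trans (le_max_left _ _)).trans hα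
  have hα3 : A3 ≤ α := ((le_max_left _ _).trans (le_max_right _ _)).trans hα
  have hα4 : 4 * k ≤ α := ((le_max_right _ _).trans (le_max_right _ _)).trans hα
  have hα0 : 0 < α := by linarith
  have hα5 : 2 * k < α := by linarith
  obtain ⟨-, -, j2, w2, -, -⟩ := v1 α hα1
  have w1 := v2 α hα2
  have w0 := v3 α hα3
  obtain ⟨hD0, hDs, hDi, hDi', -, hDf⟩ := h4 γ L k α hγ hd hk hα5
  have hbc : BC g := ⟨hg.continuous, M0, hM0⟩
  obtain ⟨hbc', hDDi, -, -⟩ := hDf g hbc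
  obtain ⟨b1, b2, b3⟩ := mu_bd hk hα4
  have hcu := cube_bd hα0 b1 b2 b3
  set a := α ^ 3 / (32 * mu α k ^ 3) with ha
  have p0 : 0 ≤ M0 := (norm_nonneg _).trans (hM0 0)
  have p1 : 0 ≤ M1 := (norm_nonneg _).trans (hM1 0)
  have p2 : 0 ≤ M2 := (norm_nonneg _).trans (hM2 0)
  have hκg : Integrable (fun s => ((kap2 γ s / 4 : ℝ) : ℂ) * g s) :=
    ((hκi.div_const 4).ofReal (𝕜 := ℂ)).mul_bdd (c := M0) hg.continuous.aestronglyMeasurable
      (Eventually.of_forall hM0)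
  refine ⟨(hDDi.const_mul _).sub hκg, ?_⟩
  -- integrability of the majorants
  have r0 : Integrable (fun s => ∫ t, Dk α k γ s t) := hDi.integral_prod_left
  have r2 : Integrable (fun s => ∫ t, Dk α k γ s t * |s - t| ^ 2) := j2.integral_prod_left
  have j1 : Integrable (fun z : ℝ × ℝ => (z.2 - z.1) * Dk α k γ z.1 z.2) := by
    refine (hDi.add j2).mono' ?_ (Eventually.of_forall fun z => ?_)
    · exact ((measurable_snd.sub measurable_fst).aestronglyMeasurable).mul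
        hDi.aestronglyMeasurable
    · have h3 := hD0 z.1 z.2
      rw [Real.norm_eq_abs, abs_mul, abs_of_nonneg h3, Pi.add_apply, abs_sub_comm z.1 z.2]
      have h4 : |z.2 - z.1| ≤ 1 + |z.2 - z.1| ^ 2 := by
        nlinarith [sq_nonneg (|z.2 - z.1| - 1), abs_nonneg (z.2 - z.1)]
      nlinarith [mul_le_mul_of_nonneg_right h4 h3]
  have r1 : Integrable (fun s => ∫ t, (t - s) * Dk α k γ s t) := j1.integral_prod_left
  have m0 : Integrable (fun s => |α ^ 2 / 2 * (∫ t, Dk α k γ s t) - a * kap2 γ s| * M0) :=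
    (((r0.const_mul _).sub (hκi.const_mul _)).abs).mul_const _
  have m0' : Integrable (fun s => |a - 1 / 4| * kap2 γ s * M0) :=
    (hκi.const_mul _).mul_const _
  have m1 : Integrable (fun s => α ^ 2 / 2 * M1 * |∫ t, (t - s) * Dk α k γ s t|) :=
    r1.abs.const_mul _
  have m2 : Integrable (fun s => α ^ 2 / 2 * M2 * ∫ t, Dk α k γ s t * |s - t| ^ 2) :=
    r2.const_mul _
  have m01 : Integrable (fun s => |α ^ 2 / 2 * (∫ t, Dk α k γ s t) - a * kap2 γ s| * M0 +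
      |a - 1 / 4| * kap2 γ s * M0) := m0.add m0'
  have m012 : Integrable (fun s => |α ^ 2 / 2 * (∫ t, Dk α k γ s t) - a * kap2 γ s| * M0 +
      |a - 1 / 4| * kap2 γ s * M0 + α ^ 2 / 2 * M1 * |∫ t, (t - s) * Dk α k γ s t|) := m01.add m1
  have key : ∫ s, ‖((α ^ 2 / 2 : ℝ) : ℂ) * DD α k γ g s - ((kap2 γ s / 4 : ℝ) : ℂ) * g s‖ ≤
      ∫ s, (|α ^ 2 / 2 * (∫ t, Dk α k γ s t) - a * kap2 γ s| * M0 +
        |a - 1 / 4| * kap2 γ s * M0 + α ^ 2 / 2 * M1 * |∫ t, (t - s) * Dk α k γ s t| +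
        α ^ 2 / 2 * M2 * ∫ t, Dk α k γ s t * |s - t| ^ 2) := by
    refine integral_mono_ae ((hDDi.const_mul _).sub hκg).norm (m012.add m2) ?_
    filter_upwards [j2.prod_right_ae] with s hs
    exact op_pt hα0 hg hM0 hM1 hM2 s a hD0 (hDi' s) hs
  refine key.trans ?_
  rw [integral_add m012 m2, integral_add m01 m1, integral_add m0 m0', integral_mul_const,
    integral_mul_const, integral_const_mul, integral_const_mul, integral_const_mul, ← hK]
  have w0' : ∫ s, |α ^ 2 / 2 * (∫ t, Dk α k γ s t) - a * kap2 γ s| ≤ C3 / α ^ 2 := by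
    refine le_trans (le_of_eq ?_) w0
    congr 1
    funext s
    congr 3
    congr 1
    funext t
    exact hDs s t
  have w1' : ∫ s, |∫ t, (t - s) * Dk α k γ s t| ≤ C2 / α ^ 4 := by
    refine le_trans (le_of_eq ?_) w1
    congr 1
    funext s
    congr 2
    funext t
    rw [hDs s t]
  have w2' : ∫ s, ∫ t, Dk α k γ s t * |s - t| ^ 2 ≤ C1 / α ^ 4 := by
    refine le_trans (le_of_eq ?_) w2
    exact (integral_prod _ j2).symm
  have z0 := mul_le_mul_of_nonneg_right w0' p0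
  have z0' : |a - 1 / 4| * K * M0 ≤ 81 / 8 * k ^ 2 / α ^ 2 * K * M0 :=
    mul_le_mul_of_nonneg_right (mul_le_mul_of_nonneg_right hcu hK0) p0
  have z1 : α ^ 2 / 2 * M1 * (∫ s, |∫ t, (t - s) * Dk α k γ s t|) ≤
      α ^ 2 / 2 * M1 * (C2 / α ^ 4) := mul_le_mul_of_nonneg_left w1' (by positivity)
  have z2 : α ^ 2 / 2 * M2 * (∫ s, ∫ t, Dk α k γ s t * |s - t| ^ 2) ≤
      α ^ 2 / 2 * M2 * (C1 / α ^ 4) := mul_le_mul_of_nonneg_left w2' (by positivity)
  refine (add_le_add (add_le_add (add_le_add z0 z0') z1) z2).trans ?_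
  have e1 : C3 / α ^ 2 * M0 + 81 / 8 * k ^ 2 / α ^ 2 * K * M0 + α ^ 2 / 2 * M1 * (C2 / α ^ 4) +
      α ^ 2 / 2 * M2 * (C1 / α ^ 4) =
      (C3 * M0 + 81 / 8 * k ^ 2 * K * M0 + C2 / 2 * M1 + C1 / 2 * M2) / α ^ 2 := by
    field_simp
  rw [e1]
  refine div_le_div_of_nonneg_right ?_ (by positivity)
  have q1 : 0 ≤ K * M0 := mul_nonneg hK0 p0
  have q2 : 0 ≤ C1 * M0 := by positivity
  have q3 : 0 ≤ C2 * M0 := by positivity
  have q4 : 0 ≤ C3 * M0 := by positivity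
  have q5 : 0 ≤ C1 * M1 := by positivity
  have q6 : 0 ≤ C2 * M1 := by positivity
  have q7 : 0 ≤ C3 * M1 := by positivity
  have q8 : 0 ≤ K * M1 := mul_nonneg hK0 p1
  have q9 : 0 ≤ C1 * M2 := by positivity
  have q10 : 0 ≤ C2 * M2 := by positivity
  have q11 : 0 ≤ C3 * M2 := by positivity
  have q12 : 0 ≤ K * M2 := mul_nonneg hK0 p2
  have q13 : 0 ≤ C1 * M0 * k ^ 2 := by positivity
  have q14 : 0 ≤ C2 * M0 * k ^ 2 := by positivity
  have q15 : 0 ≤ C3 * M0 * k ^ 2 := by positivity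
  have : (C1 + C2 + C3 + 81 / 8 * K) * ((1 + k ^ 2) * M0 + M1 + M2) -
      (C3 * M0 + 81 / 8 * k ^ 2 * K * M0 + C2 / 2 * M1 + C1 / 2 * M2) =
      C1 * M0 + C2 * M0 + 81 / 8 * (K * M0) + C1 * M0 * k ^ 2 + C2 * M0 * k ^ 2 +
        C3 * M0 * k ^ 2 + C1 * M1 + C2 * M1 / 2 + C3 * M1 + 81 / 8 * (K * M1) + C1 * M2 / 2 +
        C2 * M2 + C3 * M2 + 81 / 8 * (K * M2) := by ring
  linarith

end Pool.Agent.E8helper71.LC
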