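import Pool.Agent.E8helper19.LC.Stm

set_option autoImplicit false
open MeasureTheory Filter Topology Set
open scoped ContDiff Real

namespace Pool.Agent.E8helper71.LC

open Pool.Agent.E8helper19.LC

theorem meas_G (μ : ℝ) : Measurable (Gk μ) := by
  have : StronglyMeasurable (fun ρ : ℝ => ∫ t in Ioi (0 : ℝ),
      (4 * π * t)⁻¹ * Real.exp (-(ρ ^ 2 / (4 * t) + μ ^ 2 * t))) := by
    apply StronglyMeasurable.integral_prod_right
    apply Measurable.stronglyMeasurable
    unfold Function.uncurry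
    fun_prop
  exact this.measurable

/-- the integrand -/
noncomputable def F (α μ : ℝ) (s u : ℝ) : ℝ := Real.exp (-(α / 2) * u) * Gk μ (√(u ^ 2 + s ^ 2))

theorem meas_F (α μ : ℝ) : Measurable (Function.uncurry (F α μ)) := by
  unfold Function.uncurry F
  have h := meas_G μ
  have h2 : Measurable (fun p : ℝ × ℝ => √(p.2 ^ 2 + p.1 ^ 2)) := by fun_prop
  exact (by fun_prop : Measurable (fun p : ℝ × ℝ => Real.exp (-(α / 2) * p.2))).mul (h.comp h2)

theorem bound_F (h2 : S_G) {α μ : ℝ} (hμ : 0 < μ) {s : ℝ} (hs : s ≠ 0) (u : ℝ) :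
    0 ≤ F α μ s u ∧ F α μ s u ≤ Real.exp (-(α / 2) * u) * Gk μ |s| := by
  obtain ⟨h2a, -, h2c, -⟩ := h2
  have hs' : 0 < |s| := abs_pos.2 hs
  have hle : |s| ≤ √(u ^ 2 + s ^ 2) := by
    rw [← Real.sqrt_sq_eq_abs]
    exact Real.sqrt_le_sqrt (by nlinarith [sq_nonneg u])
  have hpos : 0 < √(u ^ 2 + s ^ 2) := lt_of_lt_of_le hs' hle
  have hG : Gk μ (√(u ^ 2 + s ^ 2)) ≤ Gk μ |s| := by
    rw [(h2a μ _ hμ hpos).2, (h2a μ _ hμ hs').2]
    exact h2c _ _ (by positivity) (by gcongr)
  have h0 := (h2a μ _ hμ hpos).1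
  exact ⟨mul_nonneg (Real.exp_pos _).le h0.le, by unfold F; gcongr⟩

theorem ae_ne : ∀ᵐ s : ℝ, s ≠ 0 := by
  have : (volume : Measure ℝ) {0} = 0 := by simp
  rw [ae_iff]
  simp

theorem int_exp {c : ℝ} (hc : 0 < c) : IntegrableOn (fun u : ℝ => Real.exp (-c * u)) (Ioi 0) :=
  integrableOn_exp_mul_Ioi (by linarith) 0

theorem int_exp_val {c : ℝ} (hc : 0 < c) : ∫ u in Ioi (0 : ℝ), Real.exp (-c * u) = 1 / c := by
  rw [integral_exp_mul_Ioi (by linarith : -c < 0) 0]
  simp

theorem integrable_prod (h2 : S_G) {α μ : ℝ} (hα : 0 < α) (hμ : 0 < μ) :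
    Integrable (Function.uncurry (F α μ)) (volume.prod (volume.restrict (Ioi (0 : ℝ)))) := by
  have hG : Integrable (fun s : ℝ => Gk μ |s|) := h2.2.2.2.2.1 μ hμ
  have he : Integrable (fun u : ℝ => Real.exp (-(α / 2) * u)) (volume.restrict (Ioi (0 : ℝ))) :=
    int_exp (by positivity)
  have hp := hG.mul_prod he
  refine hp.mono' (meas_F α μ).aestronglyMeasurable ?_
  have hne : ∀ᵐ z : ℝ × ℝ ∂(volume.prod (volume.restrict (Ioi (0 : ℝ)))), z.1 ≠ 0 :=
    Measure.quasiMeasurePreserving_fst.ae ae_ne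
  filter_upwards [hne] with z hz
  have hb := bound_F h2 (α := α) hμ hz z.2
  show ‖F α μ z.1 z.2‖ ≤ Gk μ |z.1| * Real.exp (-(α / 2) * z.2)
  rw [Real.norm_of_nonneg hb.1, mul_comm]
  exact hb.2

/-- the kernel -/
noncomputable def w (α μ : ℝ) (s : ℝ) : ℝ :=
  α * Gk μ |s| - α ^ 2 / 2 * ∫ u in Ioi (0 : ℝ), F α μ s u

theorem mu_pos {α k : ℝ} (hk : 0 < k) (h : 2 * k < α) : 0 < mu α k := by
  unfold mu
  apply Real.sqrt_pos.2
  nlinarith

theorem t_WA (h : S_FT) (h2 : S_G) : S_WA := by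
  intro α k hk hα
  have hα0 : 0 < α := by linarith
  have hμ := mu_pos hk hα
  set μ := mu α k with hμd
  have hG : Integrable (fun s : ℝ => Gk μ |s|) := h2.2.2.2.2.1 μ hμ
  have hprod := integrable_prod h2 hα0 hμ
  have hI : Integrable (fun s : ℝ => ∫ u in Ioi (0 : ℝ), F α μ s u) := hprod.integral_prod_left
  have hmeasI : Measurable (fun s : ℝ => ∫ u in Ioi (0 : ℝ), F α μ s u) := by
    have : StronglyMeasurable (fun s : ℝ => ∫ u in Ioi (0 : ℝ), F α μ s u) :=
      StronglyMeasurable.integral_prod_right (meas_F α μ).stronglyMeasurable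
    exact this.measurable
  have hmG : Measurable (fun s : ℝ => Gk μ |s|) := (meas_G μ).comp measurable_norm
  have hint : Integrable (w α μ) := (hG.const_mul α).sub (hI.const_mul (α ^ 2 / 2))
  -- Fourier transform
  have hft : ∀ p : ℝ, ∫ r, (w α μ r : ℂ) * pw p r =
      ((α / (α + 2 * √(p ^ 2 + μ ^ 2)) : ℝ) : ℂ) := by
    intro p
    set q := √(p ^ 2 + μ ^ 2) with hq
    have hq0 : 0 < q := Real.sqrt_pos.2 (by positivity)
    have hpwc : Continuous (pw p) := by unfold pw; fun_prop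
    have hpwn : ∀ r : ℝ, ‖pw p r‖ = 1 := by
      intro r
      unfold pw
      rw [Complex.norm_exp]
      simp
    have hpG : Integrable (fun r : ℝ => ((Gk μ |r| : ℝ) : ℂ) * pw p r) := by
      refine (hG.ofReal (𝕜 := ℂ)).mul_bdd (c := 1) hpwc.aestronglyMeasurable ?_
      exact Filter.Eventually.of_forall fun r => (hpwn r).le
    have hpI : Integrable (fun r : ℝ => ((∫ u in Ioi (0 : ℝ), F α μ r u : ℝ) : ℂ) * pw p r) := by
      refine (hI.ofReal (𝕜 := ℂ)).mul_bdd (c := 1) hpwc.aestronglyMeasurable ?_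
      exact Filter.Eventually.of_forall fun r => (hpwn r).le
    have e1 : ∫ r, (w α μ r : ℂ) * pw p r =
        α * (∫ r : ℝ, ((Gk μ |r| : ℝ) : ℂ) * pw p r) - ((α ^ 2 / 2 : ℝ) : ℂ) *
          ∫ r : ℝ, ((∫ u in Ioi (0 : ℝ), F α μ r u : ℝ) : ℂ) * pw p r := by
      rw [← integral_const_mul, ← integral_const_mul, ← integral_sub (hpG.const_mul _)
        (hpI.const_mul _)]
      apply integral_congr_ae
      refine Filter.Eventually.of_forall fun r => ?_
      simp only [w]
      push_cast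
      ring
    have e2 : ∫ r : ℝ, ((∫ u in Ioi (0 : ℝ), F α μ r u : ℝ) : ℂ) * pw p r =
        ((1 / (2 * q) * (1 / (α / 2 + q)) : ℝ) : ℂ) := by
      have hc : Integrable (Function.uncurry (fun (r u : ℝ) => ((F α μ r u : ℝ) : ℂ) * pw p r))
          (volume.prod (volume.restrict (Ioi (0 : ℝ)))) := by
        have := (hprod.ofReal (𝕜 := ℂ)).mul_bdd (c := 1)
          (g := fun z : ℝ × ℝ => pw p z.1) (hpwc.comp continuous_fst).aestronglyMeasurable
          (Filter.Eventually.of_forall fun z => (hpwn z.1).le)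
        exact this
      have s1 : ∫ r : ℝ, ((∫ u in Ioi (0 : ℝ), F α μ r u : ℝ) : ℂ) * pw p r =
          ∫ r : ℝ, ∫ u in Ioi (0 : ℝ), ((F α μ r u : ℝ) : ℂ) * pw p r := by
        apply integral_congr_ae
        refine Filter.Eventually.of_forall fun r => ?_
        simp only
        rw [integral_mul_const, ← integral_complex_ofReal]
      rw [s1, integral_integral_swap hc]
      have s2 : ∀ u ∈ Ioi (0 : ℝ), ∫ r : ℝ, ((F α μ r u : ℝ) : ℂ) * pw p r =
          ((1 / (2 * q) * Real.exp (-(α / 2 + q) * u) : ℝ) : ℂ) := by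
        intro u hu
        have hu0 : 0 < u := hu
        have := h.2 μ p u hμ hu0.ne'
        rw [abs_of_pos hu0, ← hq] at this
        have s3 : ∫ r : ℝ, ((F α μ r u : ℝ) : ℂ) * pw p r =
            ((Real.exp (-(α / 2) * u) : ℝ) : ℂ) *
              ∫ r : ℝ, ((Gk μ (√(u ^ 2 + r ^ 2)) : ℝ) : ℂ) * pw p r := by
          rw [← integral_const_mul]
          apply integral_congr_ae
          refine Filter.Eventually.of_forall fun r => ?_
          simp only [F]
          push_cast
          ring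
        rw [s3, this, ← Complex.ofReal_mul]
        congr 1
        have : Real.exp (-(α / 2 + q) * u) = Real.exp (-(α / 2) * u) * Real.exp (-(q * u)) := by
          rw [← Real.exp_add]; congr 1; ring
        rw [this]
        ring
      rw [setIntegral_congr_fun measurableSet_Ioi s2, integral_complex_ofReal,
        integral_const_mul, int_exp_val (by positivity)]
    rw [e1, e2, h.1 μ p hμ, ← hq, ← Complex.ofReal_mul, ← Complex.ofReal_mul,
      ← Complex.ofReal_sub]
    congr 1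
    field_simp
    ring
  refine ⟨w α μ, ⟨(hmG.const_mul α).sub (hmeasI.const_mul (α ^ 2 / 2)), hint, ?_, ?_⟩⟩
  · -- nonnegative
    have hnn : ∀ᵐ s : ℝ, 0 ≤ w α μ s := by
      filter_upwards [ae_ne] with s hs
      have hs' : 0 < |s| := abs_pos.2 hs
      have he : IntegrableOn (fun u : ℝ => Real.exp (-(α / 2) * u) * Gk μ |s|) (Ioi 0) :=
        (int_exp (by positivity)).mul_const _
      have hle : ∫ u in Ioi (0 : ℝ), F α μ s u ≤
          ∫ u in Ioi (0 : ℝ), Real.exp (-(α / 2) * u) * Gk μ |s| := by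
        refine integral_mono_of_nonneg ?_ he ?_
        · exact Filter.Eventually.of_forall fun u => (bound_F h2 hμ hs u).1
        · exact Filter.Eventually.of_forall fun u => (bound_F h2 hμ hs u).2
      rw [integral_mul_const, int_exp_val (by positivity)] at hle
      have : α ^ 2 / 2 * ∫ u in Ioi (0 : ℝ), F α μ s u ≤ α ^ 2 / 2 * (1 / (α / 2) * Gk μ |s|) := by
        gcongr
      have e : α ^ 2 / 2 * (1 / (α / 2) * Gk μ |s|) = α * Gk μ |s| := by field_simp
      unfold w
      linarith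
    have h1 : ∫ s, |w α μ s| = ∫ s, w α μ s :=
      integral_congr_ae (by filter_upwards [hnn] with s hs using abs_of_nonneg hs)
    have h3 := hft 0
    have h4 : ∫ r, (w α μ r : ℂ) * pw 0 r = ((∫ r, w α μ r : ℝ) : ℂ) := by
      rw [← integral_complex_ofReal]
      apply integral_congr_ae
      refine Filter.Eventually.of_forall fun r => ?_
      simp [pw]
    rw [h4] at h3
    have h5 := Complex.ofReal_injective h3
    rw [h1, h5, div_le_one (by positivity)]
    have : 0 ≤ √((0 : ℝ) ^ 2 + μ ^ 2) := Real.sqrt_nonneg _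
    linarith
  · intro p
    exact hft p

end Pool.Agent.E8helper71.LC
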